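import Mathlib

/-!
# Loop density versus spectral radius for unimodular regular graphs

We prove that the linear lower bound for the spectral radius in terms of the loop density is of the
right order: there is a constant `C` (in fact `C = 1` works, for every `d`) such that for every
`d ≥ 3` and every `r ∈ (0, 1]` there is an infinite `d`-regular unimodular random graph whose loop
density is at least `r` and whose spectral radius is at most `2 √(d - 1) / d + C r`, where
`2 √(d - 1) / d` is the spectral radius of the `d`-regular tree (Kesten).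
-/

open MeasureTheory Filter
open scoped ENNReal

namespace Pool.Agent.Results.MP_74bc7f_pr.LinearOrder

/-! ### The objects in the statement -/

/-- A graph on the vertex set `ℕ` (loops and multiple edges allowed), given by its multiplicities:
`a x y` is the number of edges between `x` and `y`, and `a x x` is the number of loops at `x`. -/
abbrev Graph := ℕ → ℕ → ℕ

/-- `a` is a connected `d`-regular graph on the (infinite) vertex set `ℕ`: the multiplicities are
symmetric, they sum to `d` around every vertex (each loop counts once), and any two vertices are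
joined by a path of edges. -/
structure IsConnectedRegular (d : ℕ) (a : Graph) : Prop where
  symm : ∀ x y, a x y = a y x
  regular : ∀ x, ∑' y, (a x y : ℝ≥0∞) = d
  connected : ∀ x y, Relation.ReflTransGen (fun u v => 1 ≤ a u v) x y

/-- The `n`-step transition probabilities of simple random walk on a `d`-regular graph: the walk
moves from `x` to `z` with probability `a x z / d`. -/
noncomputable def stepProb (d : ℕ) (a : Graph) : ℕ → ℕ → ℕ → ℝ≥0∞
  | 0, x, y => if x = y then 1 else 0
  | n + 1, x, y => ∑' z, (a x z : ℝ≥0∞) / d * stepProb d a n z y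

/-- The spectral radius `limsup_n p_{2n}(o, o)^{1/(2n)}`. -/
noncomputable def spectralRadius (d : ℕ) (a : Graph) (o : ℕ) : ℝ≥0∞ :=
  limsup (fun n : ℕ => stepProb d a (2 * n) o o ^ (1 / (2 * n : ℝ))) atTop

/-- A function of doubly rooted graphs `(a, x, y)` which depends only on the isomorphism class:
relabelling the vertices by a bijection `σ` of `ℕ` does not change its value. -/
def IsoInvariant (f : Graph × ℕ × ℕ → ℝ≥0∞) : Prop :=
  ∀ (σ : Equiv.Perm ℕ) (a : Graph) (x y : ℕ),
    f (fun u v => a (σ u) (σ v), x, y) = f (a, σ x, σ y)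

/-- `μ` is the law of an infinite `d`-regular unimodular random graph `(a, o)`, coded on the vertex
set `ℕ`: a probability measure on rooted graphs, almost surely connected and `d`-regular, which
satisfies the mass transport principle for all nonnegative Borel functions on doubly rooted graphs
(up to isomorphism). -/
structure IsUnimodularRegular (d : ℕ) (μ : Measure (Graph × ℕ)) : Prop where
  probability : μ Set.univ = 1
  regular : ∀ᵐ p ∂μ, IsConnectedRegular d p.1
  massTransport : ∀ f : Graph × ℕ × ℕ → ℝ≥0∞, Measurable f → IsoInvariant f →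
    ∫⁻ p, ∑' x, f (p.1, p.2, x) ∂μ = ∫⁻ p, ∑' x, f (p.1, x, p.2) ∂μ

/-- The spectral radius of a random rooted graph: the essential supremum of the spectral radius of
the sample. -/
noncomputable def randomSpectralRadius (d : ℕ) (μ : Measure (Graph × ℕ)) : ℝ≥0∞ :=
  essSup (fun p => spectralRadius d p.1 p.2) μ

/-- The loop density: the probability that the root carries at least one loop. -/
noncomputable def loopDensity (μ : Measure (Graph × ℕ)) : ℝ≥0∞ :=
  μ {p | 1 ≤ p.1 p.2 p.2}

/-! ### Supersolutions bound the spectral radius -/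

lemma stepProb_mul_le (d : ℕ) (a : Graph) (f : ℕ → ℝ≥0∞) (lam : ℝ≥0∞)
    (h : ∀ x, ∑' y, (a x y : ℝ≥0∞) * f y ≤ lam * f x) (n : ℕ) (x y : ℕ) :
    stepProb d a n x y * f y ≤ (lam / d) ^ n * f x := by
  induction n generalizing x with
  | zero =>
    simp only [stepProb, pow_zero, one_mul]
    split_ifs with hxy
    · simp [hxy]
    · simp
  | succ n ih =>
    simp only [stepProb]
    rw [← ENNReal.tsum_mul_right]
    calc ∑' z, (a x z : ℝ≥0∞) / d * stepProb d a n z y * f y
        ≤ ∑' z, (a x z : ℝ≥0∞) / d * ((lam / d) ^ n * f z) := by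
          refine ENNReal.tsum_le_tsum fun z => ?_
          rw [mul_assoc]
          exact mul_le_mul' le_rfl (ih z)
      _ = (lam / d) ^ n * (d : ℝ≥0∞)⁻¹ * ∑' z, (a x z : ℝ≥0∞) * f z := by
          rw [← ENNReal.tsum_mul_left]
          refine tsum_congr fun z => ?_
          rw [div_eq_mul_inv]
          ring
      _ ≤ (lam / d) ^ n * (d : ℝ≥0∞)⁻¹ * (lam * f x) := by
          gcongr
          exact h x
      _ = (lam / d) ^ (n + 1) * f x := by
          rw [pow_succ, div_eq_mul_inv]
          ring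

lemma spectralRadius_le (d : ℕ) (a : Graph) (f : ℕ → ℝ≥0∞) (lam : ℝ≥0∞)
    (h : ∀ x, ∑' y, (a x y : ℝ≥0∞) * f y ≤ lam * f x) (hpos : ∀ x, f x ≠ 0)
    (hfin : ∀ x, f x ≠ ⊤) (o : ℕ) :
    spectralRadius d a o ≤ lam / d := by
  unfold spectralRadius
  refine limsup_le_of_le (by isBoundedDefault) ?_
  filter_upwards [eventually_ge_atTop 1] with n hn
  have h1 : stepProb d a (2 * n) o o ≤ (lam / d) ^ (2 * n) := by
    have := stepProb_mul_le d a f lam h (2 * n) o o
    rwa [ENNReal.mul_le_mul_iff_left (hpos o) (hfin o)] at this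
  have h2 : (0 : ℝ) < 2 * n := by positivity
  calc stepProb d a (2 * n) o o ^ (1 / (2 * n : ℝ))
      ≤ ((lam / d) ^ (2 * n)) ^ (1 / (2 * n : ℝ)) := by
        exact ENNReal.rpow_le_rpow h1 (by positivity)
    _ = lam / d := by
        rw [← ENNReal.rpow_natCast, ← ENNReal.rpow_mul]
        have : ((2 * n : ℕ) : ℝ) * (1 / (2 * n : ℝ)) = 1 := by
          push_cast
          field_simp
        rw [this, ENNReal.rpow_one]

/-! ### Graphs given by a dart involution

We describe a `d`-regular graph on a vertex set `V` by an involution `rev` of the set `V × P` of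
darts, where `P` is a set of `d` ports: the port `k` at `x` is joined to the port `(rev (x, k)).2`
at the vertex `(rev (x, k)).1`. -/

section Darts

variable {V P : Type} [Fintype P] [DecidableEq V]

/-- The multiplicities of the graph with dart involution `rev`. -/
def mult (rev : V × P → V × P) (x y : V) : ℕ :=
  (Finset.univ.filter fun k : P => (rev (x, k)).1 = y).card

lemma mult_symm (rev : V × P → V × P) (hrev : ∀ z, rev (rev z) = z) (x y : V) :
    mult rev x y = mult rev y x := by
  classical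
  unfold mult
  refine Finset.card_bij' (fun k _ => (rev (x, k)).2) (fun k _ => (rev (y, k)).2) ?_ ?_ ?_ ?_
  · intro k hk
    simp only [Finset.mem_filter, Finset.mem_univ, true_and] at hk ⊢
    have : (y, (rev (x, k)).2) = rev (x, k) := by rw [← hk]
    rw [this, hrev]
  · intro k hk
    simp only [Finset.mem_filter, Finset.mem_univ, true_and] at hk ⊢
    have : (x, (rev (y, k)).2) = rev (y, k) := by rw [← hk]
    rw [this, hrev]
  · intro k hk
    simp only [Finset.mem_filter, Finset.mem_univ, true_and] at hk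
    have : (y, (rev (x, k)).2) = rev (x, k) := by rw [← hk]
    simp only [this, hrev]
  · intro k hk
    simp only [Finset.mem_filter, Finset.mem_univ, true_and] at hk
    have : (x, (rev (y, k)).2) = rev (y, k) := by rw [← hk]
    simp only [this, hrev]

lemma tsum_mult_mul (rev : V × P → V × P) (f : V → ℝ≥0∞) (x : V) :
    ∑' y, (mult rev x y : ℝ≥0∞) * f y = ∑ k : P, f (rev (x, k)).1 := by
  have h : ∀ y, (mult rev x y : ℝ≥0∞) * f y
      = ∑ k : P, if (rev (x, k)).1 = y then f y else 0 := by
    intro y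
    unfold mult
    rw [Finset.card_filter]
    push_cast
    rw [Finset.sum_mul]
    refine Finset.sum_congr rfl fun k _ => ?_
    split_ifs <;> simp
  simp_rw [h]
  rw [Summable.tsum_finsetSum (fun _ _ => ENNReal.summable)]
  refine Finset.sum_congr rfl fun k _ => ?_
  have : ∀ y, (if (rev (x, k)).1 = y then f y else 0)
      = if y = (rev (x, k)).1 then f (rev (x, k)).1 else 0 := by
    intro y
    by_cases hy : (rev (x, k)).1 = y
    · simp [hy]
    · rw [if_neg hy, if_neg (Ne.symm hy)]
  simp_rw [this]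
  exact tsum_ite_eq _ _

lemma one_le_mult (rev : V × P → V × P) (x : V) (k : P) :
    1 ≤ mult rev x (rev (x, k)).1 := by
  unfold mult
  rw [Nat.one_le_iff_ne_zero, Ne, Finset.card_eq_zero]
  intro h
  have : k ∈ (Finset.univ.filter fun k' : P => (rev (x, k')).1 = (rev (x, k)).1) := by simp
  rw [h] at this
  simp at this

end Darts

/-! ### Transfer to the vertex set `ℕ`, and unimodularity from a free action -/

section Transfer

variable {Γ B P : Type} [Group Γ] [Fintype B] [Fintype P] [DecidableEq Γ] [DecidableEq B]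

/-- The graph on `Γ × B`, relabelled by a bijection with `ℕ`. -/
def coded (e : Γ × B ≃ ℕ) (rev : (Γ × B) × P → (Γ × B) × P) : Graph :=
  fun u v => mult rev (e.symm u) (e.symm v)

/-- The law of the rooted graph with root uniform in `{1} × B`. -/
noncomputable def rootedLaw (e : Γ × B ≃ ℕ) (rev : (Γ × B) × P → (Γ × B) × P) :
    Measure (Graph × ℕ) :=
  (Fintype.card B : ℝ≥0∞)⁻¹ • ∑ b : B, Measure.dirac (coded e rev, e (1, b))

lemma lintegral_rootedLaw (e : Γ × B ≃ ℕ) (rev : (Γ × B) × P → (Γ × B) × P)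
    (F : Graph × ℕ → ℝ≥0∞) :
    ∫⁻ p, F p ∂(rootedLaw e rev)
      = (Fintype.card B : ℝ≥0∞)⁻¹ * ∑ b : B, F (coded e rev, e (1, b)) := by
  unfold rootedLaw
  rw [lintegral_smul_measure, lintegral_finsetSum_measure]
  simp [lintegral_dirac]

/-- Right multiplication by `h` on the first coordinate. -/
def shift (h : Γ) : Γ × B ≃ Γ × B :=
  (Equiv.mulRight h).prodCongr (Equiv.refl B)

omit [Fintype B] in
lemma mult_shift (rev : (Γ × B) × P → (Γ × B) × P)
    (hinv : ∀ (h : Γ) (v : Γ × B) (k : P), (rev (shift h v, k)).1 = shift h (rev (v, k)).1)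
    (h : Γ) (x y : Γ × B) : mult rev (shift h x) (shift h y) = mult rev x y := by
  unfold mult
  congr 1
  ext k
  simp only [Finset.mem_filter, Finset.mem_univ, true_and]
  rw [hinv]
  exact (shift h).injective.eq_iff

omit [Fintype B] in
lemma coded_invariant (e : Γ × B ≃ ℕ) (rev : (Γ × B) × P → (Γ × B) × P)
    (hinv : ∀ (h : Γ) (v : Γ × B) (k : P), (rev (shift h v, k)).1 = shift h (rev (v, k)).1)
    (f : Graph × ℕ × ℕ → ℝ≥0∞) (hf : IsoInvariant f) (h : Γ) (x y : Γ × B) :
    f (coded e rev, e (shift h x), e (shift h y)) = f (coded e rev, e x, e y) := by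
  have := hf ((e.symm.trans (shift h)).trans e) (coded e rev) (e x) (e y)
  simp only [Equiv.trans_apply, Equiv.symm_apply_apply] at this
  rw [← this]
  congr 2
  funext u v
  simp only [coded, Equiv.symm_apply_apply]
  exact mult_shift rev hinv h _ _

lemma massTransport_rootedLaw (e : Γ × B ≃ ℕ) (rev : (Γ × B) × P → (Γ × B) × P)
    (hinv : ∀ (h : Γ) (v : Γ × B) (k : P), (rev (shift h v, k)).1 = shift h (rev (v, k)).1)
    (f : Graph × ℕ × ℕ → ℝ≥0∞) (hf : IsoInvariant f) :
    ∫⁻ p, ∑' x, f (p.1, p.2, x) ∂(rootedLaw e rev)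
      = ∫⁻ p, ∑' x, f (p.1, x, p.2) ∂(rootedLaw e rev) := by
  rw [lintegral_rootedLaw, lintegral_rootedLaw]
  congr 1
  have key : ∀ (b b' : B) (g : Γ), f (coded e rev, e (1, b), e (g, b'))
      = f (coded e rev, e (g⁻¹, b), e (1, b')) := by
    intro b b' g
    have := coded_invariant e rev hinv f hf g⁻¹ (1, b) (g, b')
    simp only [shift, Equiv.prodCongr_apply, Prod.map_apply, Equiv.coe_mulRight, one_mul,
      mul_inv_cancel, Equiv.coe_refl, id_eq] at this
    exact this.symm
  have e1 : ∀ b : B, ∑' x, f (coded e rev, e (1, b), x)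
      = ∑ b' : B, ∑' g : Γ, f (coded e rev, e (g, b), e (1, b')) := by
    intro b
    rw [← e.tsum_eq, ENNReal.tsum_prod (f := fun g b' => f (coded e rev, e (1, b), e (g, b'))),
      ENNReal.tsum_comm, tsum_fintype]
    refine Finset.sum_congr rfl fun b' _ => ?_
    simp_rw [key]
    exact (Equiv.inv Γ).tsum_eq (fun g => f (coded e rev, e (g, b), e (1, b')))
  have e2 : ∀ b : B, ∑' x, f (coded e rev, x, e (1, b))
      = ∑ b' : B, ∑' g : Γ, f (coded e rev, e (g, b'), e (1, b)) := by
    intro b
    rw [← e.tsum_eq, ENNReal.tsum_prod (f := fun g b' => f (coded e rev, e (g, b'), e (1, b))),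
      ENNReal.tsum_comm, tsum_fintype]
  simp_rw [e1, e2]
  exact Finset.sum_comm

end Transfer

/-! ### The group and the code of its elements -/

section Construction

variable {q L : ℕ}

/-- Index set of the involutions: a leaf (a word of length `L`) and a letter. -/
abbrev Idx (q L : ℕ) : Type := {l : List (Fin q) // l.length = L} × Fin q

/-- The free product of copies of `ℤ/2` indexed by `Idx q L`. -/
abbrev Grp (q L : ℕ) : Type := Monoid.CoprodI (fun _ : Idx q L => Multiplicative (ZMod 2))

/-- Reduced words in the free product. -/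
abbrev Wd (q L : ℕ) : Type := Monoid.CoprodI.Word (fun _ : Idx q L => Multiplicative (ZMod 2))

/-- The generating involutions. -/
def gen (i : Idx q L) : Grp q L := Monoid.CoprodI.of (i := i) (Multiplicative.ofAdd (1 : ZMod 2))

lemma ofAdd_one_mul_self :
    (Multiplicative.ofAdd (1 : ZMod 2)) * Multiplicative.ofAdd (1 : ZMod 2) = 1 := by
  decide

lemma eq_ofAdd_one {m : Multiplicative (ZMod 2)} (hm : m ≠ 1) :
    m = Multiplicative.ofAdd (1 : ZMod 2) := by
  revert m
  decide

lemma ofAdd_one_ne_one : Multiplicative.ofAdd (1 : ZMod 2) ≠ 1 := by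
  decide

lemma gen_mul_gen (i : Idx q L) : gen i * gen i = 1 := by
  unfold gen
  rw [← map_mul, ofAdd_one_mul_self, map_one]

lemma gen_mul_gen_mul (i : Idx q L) (g : Grp q L) : gen i * (gen i * g) = g := by
  rw [← mul_assoc, gen_mul_gen, one_mul]

/-- The sequence of indices of the reduced word of `g`. -/
noncomputable def code (g : Grp q L) : List (Idx q L) :=
  (Monoid.CoprodI.Word.equiv g).toList.map Sigma.fst

lemma code_one : code (1 : Grp q L) = [] := by
  have : Monoid.CoprodI.Word.equiv (1 : Grp q L) = Monoid.CoprodI.Word.empty := by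
    show (1 : Grp q L) • (Monoid.CoprodI.Word.empty : Wd q L) = _
    exact one_smul _ _
  unfold code
  rw [this]
  rfl

lemma code_head (g : Grp q L) :
    (code g).head? = (Monoid.CoprodI.Word.equiv g).fstIdx := by
  unfold code Monoid.CoprodI.Word.fstIdx
  rw [List.head?_map]

lemma equiv_gen_mul (i : Idx q L) (g : Grp q L) :
    Monoid.CoprodI.Word.equiv (gen i * g) = gen i • Monoid.CoprodI.Word.equiv g := by
  show (gen i * g) • (Monoid.CoprodI.Word.empty : Wd q L) = _
  rw [mul_smul]
  rfl

lemma code_gen_mul {i : Idx q L} {g : Grp q L} (h : (code g).head? ≠ some i) :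
    code (gen i * g) = i :: code g := by
  rw [code_head] at h
  have := Monoid.CoprodI.Word.cons_eq_smul (i := i)
    (m := Multiplicative.ofAdd (1 : ZMod 2)) (ls := Monoid.CoprodI.Word.equiv g)
    (h1 := h) (h2 := ofAdd_one_ne_one)
  unfold code
  rw [equiv_gen_mul]
  unfold gen
  rw [← this]
  simp [Monoid.CoprodI.Word.cons]

lemma code_eq_cons {i : Idx q L} {g : Grp q L} (h : (code g).head? = some i) :
    code g = i :: code (gen i * g) ∧ (code (gen i * g)).head? ≠ some i := by
  have key : (code (gen i * g)).head? ≠ some i := by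
    rw [code_head] at h ⊢
    rw [equiv_gen_mul]
    generalize hw : Monoid.CoprodI.Word.equiv g = w at h
    revert h
    induction w using Monoid.CoprodI.Word.consRecOn with
    | empty => intro h; simp [Monoid.CoprodI.Word.fstIdx, Monoid.CoprodI.Word.empty] at h
    | cons j m w h1 h2 _ =>
      intro h
      rw [Monoid.CoprodI.Word.fstIdx_cons] at h
      obtain rfl : j = i := by simpa using h
      rw [Monoid.CoprodI.Word.cons_eq_smul, ← mul_smul]
      rw [eq_ofAdd_one h2]
      have : gen j * Monoid.CoprodI.of (i := j) (Multiplicative.ofAdd (1 : ZMod 2))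
          = (1 : Grp q L) := gen_mul_gen j
      rw [this, one_smul]
      exact h1
  refine ⟨?_, key⟩
  have := code_gen_mul key
  rwa [gen_mul_gen_mul] at this

/-- The vertices of one tile: words of length at most `L`. -/
abbrev Ball (q L : ℕ) : Type := {l : List (Fin q) // l.length ≤ L}

/-- The dart involution of our graph on `Grp q L × Ball q L`. The port `none` at a nonempty word
leads to the word with the first letter removed, at the empty word it is a loop; the port `some c`
leads to the word extended by `c` if that has length at most `L`, and otherwise to the same word in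
the neighbouring tile. -/
def rev (z : (Grp q L × Ball q L) × Option (Fin q)) : (Grp q L × Ball q L) × Option (Fin q) :=
  match z with
  | ((g, ⟨[], h⟩), none) => ((g, ⟨[], h⟩), none)
  | ((g, ⟨c :: t, h⟩), none) => ((g, ⟨t, by simp only [List.length_cons] at h; omega⟩), some c)
  | ((g, ⟨l, h⟩), some c) =>
    if h' : l.length < L then ((g, ⟨c :: l, by simp only [List.length_cons]; omega⟩), none)
    else ((gen (⟨l, by omega⟩, c) * g, ⟨l, h⟩), some c)

lemma rev_rev (z : (Grp q L × Ball q L) × Option (Fin q)) : rev (rev z) = z := by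
  match z with
  | ((g, ⟨[], h⟩), none) => rfl
  | ((g, ⟨c :: t, h⟩), none) =>
    have h' : t.length < L := by simp only [List.length_cons] at h; omega
    simp [rev, h']
  | ((g, ⟨l, h⟩), some c) =>
    by_cases h' : l.length < L
    · simp [rev, h']
    · simp [rev, h', gen_mul_gen_mul]

lemma rev_shift (h : Grp q L) (v : Grp q L × Ball q L) (k : Option (Fin q)) :
    (rev (shift h v, k)).1 = shift h (rev (v, k)).1 := by
  match v, k with
  | (g, ⟨[], hl⟩), none => rfl
  | (g, ⟨c :: t, hl⟩), none => rfl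
  | (g, ⟨l, hl⟩), some c =>
    by_cases h' : l.length < L
    · simp [rev, h', shift]
    · simp [rev, h', shift, mul_assoc]

/-! ### The positive supersolution -/

/-- The profile along the path to the entrance leaf. -/
noncomputable def Phi (s : ℝ) (j : ℕ) : ℝ := s ^ 2 * s ^ j + s * s⁻¹ ^ j

lemma Phi_pos {s : ℝ} (hs : 0 < s) (j : ℕ) : 0 < Phi s j := by
  unfold Phi; positivity

lemma Phi_add {s : ℝ} (hs : 0 < s) (j : ℕ) :
    Phi s j + Phi s (j + 2) = (s + s⁻¹) * Phi s (j + 1) := by
  unfold Phi
  have hsu : s * s⁻¹ = 1 := mul_inv_cancel₀ hs.ne'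
  generalize s⁻¹ = u at hsu ⊢
  linear_combination (-(s ^ 2 * s ^ j) - s * u ^ j) * hsu

/-- The profile in a tile with entrance leaf `m`. -/
noncomputable def phi (s : ℝ) (m : List (Fin q)) : List (Fin q) → ℝ
  | [] => Phi s 0
  | c :: t => if (c :: t) <:+ m then Phi s (t.length + 1) else s⁻¹ * phi s m t

lemma phi_pos {s : ℝ} (hs : 0 < s) (m l : List (Fin q)) : 0 < phi s m l := by
  induction l with
  | nil => exact Phi_pos hs 0
  | cons c t ih =>
    rw [phi]
    split_ifs
    · exact Phi_pos hs _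
    · positivity

lemma phi_of_suffix {s : ℝ} {m l : List (Fin q)} (h : l <:+ m) : phi s m l = Phi s l.length := by
  cases l with
  | nil => rfl
  | cons c t => rw [phi, if_pos h, List.length_cons]

lemma phi_of_not_suffix {s : ℝ} {m t : List (Fin q)} {c : Fin q} (h : ¬ (c :: t) <:+ m) :
    phi s m (c :: t) = s⁻¹ * phi s m t := by
  rw [phi, if_neg h]

/-- The entrance leaf. -/
def ent (l₀ : List (Fin q)) : Option (Idx q L) → List (Fin q)
  | none => l₀
  | some i => i.1.1

/-- The multiplicative constant of a tile. -/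
noncomputable def tileConst (s : ℝ) (l₀ : List (Fin q)) : List (Idx q L) → ℝ
  | [] => 1
  | i :: t => s⁻¹ * tileConst s l₀ t * phi s (ent l₀ t.head?) i.1.1 / Phi s L

lemma tileConst_pos {s : ℝ} (hs : 0 < s) (l₀ : List (Fin q)) (w : List (Idx q L)) :
    0 < tileConst s l₀ w := by
  induction w with
  | nil => simp [tileConst]
  | cons i t ih =>
    rw [tileConst]
    have := phi_pos hs (ent l₀ t.head?) i.1.1
    have := Phi_pos hs L
    positivity

/-- The supersolution. -/
noncomputable def sup (s : ℝ) (l₀ : List (Fin q)) (v : Grp q L × Ball q L) : ℝ :=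
  tileConst s l₀ (code v.1) * phi s (ent l₀ (code v.1).head?) v.2.1

lemma sup_pos {s : ℝ} (hs : 0 < s) (l₀ : List (Fin q)) (v : Grp q L × Ball q L) :
    0 < sup s l₀ v :=
  mul_pos (tileConst_pos hs _ _) (phi_pos hs _ _)

/-- Crossing to a new tile away from the root. -/
lemma sup_gen_of_ne {s : ℝ} (hs : 0 < s) (l₀ : List (Fin q)) (g : Grp q L) (i : Idx q L)
    (h : (code g).head? ≠ some i) (hl : i.1.1.length ≤ L) :
    sup s l₀ (gen i * g, ⟨i.1.1, hl⟩) = s⁻¹ * sup s l₀ (g, ⟨i.1.1, hl⟩) := by
  unfold sup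
  simp only [code_gen_mul h, List.head?_cons, tileConst, ent]
  rw [phi_of_suffix (List.suffix_refl _), i.1.2]
  have := (Phi_pos hs L).ne'
  field_simp

/-- Crossing back to the previous tile. -/
lemma sup_gen_of_eq {s : ℝ} (hs : 0 < s) (l₀ : List (Fin q)) (g : Grp q L) (i : Idx q L)
    (h : (code g).head? = some i) (hl : i.1.1.length ≤ L) :
    sup s l₀ (gen i * g, ⟨i.1.1, hl⟩) = s * sup s l₀ (g, ⟨i.1.1, hl⟩) := by
  obtain ⟨h1, h2⟩ := code_eq_cons h
  have := sup_gen_of_ne hs l₀ (gen i * g) i h2 hl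
  rw [gen_mul_gen_mul] at this
  rw [this, ← mul_assoc, mul_inv_cancel₀ hs.ne', one_mul]

lemma sup_eq_of_head {s : ℝ} (l₀ : List (Fin q)) (g : Grp q L) (l : List (Fin q))
    (h : l.length ≤ L) :
    sup s l₀ (g, ⟨l, h⟩) = tileConst s l₀ (code g) * phi s (ent l₀ (code g).head?) l := rfl

lemma length_ent {l₀ : List (Fin q)} (hl₀ : l₀.length = L) (o : Option (Idx q L)) :
    (ent l₀ o).length = L := by
  cases o with
  | none => exact hl₀
  | some i => exact i.1.2

lemma suffix_eq_of_length {m l l' : List (Fin q)} (h : l <:+ m) (h' : l' <:+ m)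
    (hl : l.length = l'.length) : l = l' :=
  (List.suffix_of_suffix_length_le h h' hl.le).eq_of_length hl

/-- The sum over the children of a word which is a proper suffix of the entrance leaf. -/
lemma sum_children_suffix {s : ℝ} (m l : List (Fin q)) (h : l <:+ m) (hlt : l.length < m.length) :
    ∑ c : Fin q, phi s m (c :: l)
      = Phi s (l.length + 1) + (q - 1) * (s⁻¹ * Phi s l.length) := by
  obtain ⟨t, ht⟩ := id h
  have htne : t ≠ [] := by
    rintro rfl
    simp only [List.nil_append] at ht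
    rw [ht] at hlt
    omega
  obtain ⟨c₀, hc₀⟩ : ∃ c₀, (c₀ :: l) <:+ m := by
    refine ⟨t.getLast htne, t.dropLast, ?_⟩
    have := List.dropLast_append_getLast htne
    calc t.dropLast ++ t.getLast htne :: l = (t.dropLast ++ [t.getLast htne]) ++ l := by simp
      _ = m := by rw [this, ht]
  have huniq : ∀ c, c ≠ c₀ → ¬ (c :: l) <:+ m := by
    intro c hc hs
    have h1 := suffix_eq_of_length hs hc₀ (by simp)
    exact hc (by simpa using h1)
  have hv : ∀ c, phi s m (c :: l)
      = s⁻¹ * Phi s l.length + if c = c₀ then Phi s (l.length + 1) - s⁻¹ * Phi s l.length else 0 := by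
    intro c
    by_cases hc : c = c₀
    · subst hc
      rw [phi_of_suffix hc₀]
      simp
    · rw [phi_of_not_suffix (huniq c hc), phi_of_suffix h]
      simp [hc]
  simp_rw [hv]
  rw [Finset.sum_add_distrib, Finset.sum_ite_eq' Finset.univ c₀]
  simp only [Finset.sum_const, Finset.card_univ, Fintype.card_fin, nsmul_eq_mul, Finset.mem_univ,
    if_true]
  ring

lemma sum_children_not_suffix {s : ℝ} (m l : List (Fin q)) (h : ¬ l <:+ m) :
    ∑ c : Fin q, phi s m (c :: l) = q * (s⁻¹ * phi s m l) := by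
  have hv : ∀ c, phi s m (c :: l) = s⁻¹ * phi s m l := by
    intro c
    refine phi_of_not_suffix fun hs => h ?_
    exact (List.suffix_cons c l).trans hs
  simp_rw [hv]
  simp

/-- The value at the end of the upward dart, at a suffix of the entrance leaf. -/
lemma sup_up_suffix {s : ℝ} (l₀ : List (Fin q)) (g : Grp q L) (l : List (Fin q))
    (h : l.length ≤ L) (hs : l <:+ ent l₀ (code g).head?) :
    sup s l₀ (rev ((g, ⟨l, h⟩), none)).1 = tileConst s l₀ (code g) * Phi s (l.length - 1) := by
  cases l with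
  | nil => rfl
  | cons c t =>
    simp only [rev]
    rw [sup_eq_of_head, phi_of_suffix ((List.suffix_cons c t).trans hs)]
    simp

/-- The value at the end of the upward dart, away from the path to the entrance leaf. -/
lemma sup_up_not_suffix {s : ℝ} (hs : 0 < s) (l₀ : List (Fin q)) (g : Grp q L) (l : List (Fin q))
    (h : l.length ≤ L) (hn : ¬ l <:+ ent l₀ (code g).head?) :
    sup s l₀ (rev ((g, ⟨l, h⟩), none)).1 = s * sup s l₀ (g, ⟨l, h⟩) := by
  cases l with
  | nil => exact absurd (List.nil_suffix) hn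
  | cons c t =>
    simp only [rev]
    rw [sup_eq_of_head, sup_eq_of_head, phi_of_not_suffix hn]
    field_simp

/-- Sum over the downward darts inside a tile. -/
lemma sum_down_inner {s : ℝ} (l₀ : List (Fin q)) (g : Grp q L) (l : List (Fin q))
    (h : l.length ≤ L) (hlt : l.length < L) :
    ∑ c : Fin q, sup s l₀ (rev ((g, ⟨l, h⟩), some c)).1
      = tileConst s l₀ (code g) * ∑ c : Fin q, phi s (ent l₀ (code g).head?) (c :: l) := by
  rw [Finset.mul_sum]
  refine Finset.sum_congr rfl fun c _ => ?_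
  simp only [rev, hlt, dif_pos]
  rfl

/-- Sum over the downward darts at a leaf which is not the entrance leaf. -/
lemma sum_down_leaf_ne {s : ℝ} (hs : 0 < s) (l₀ : List (Fin q)) (g : Grp q L) (l : List (Fin q))
    (h : l.length ≤ L) (hlt : ¬ l.length < L) (hn : l ≠ ent l₀ (code g).head?) :
    ∑ c : Fin q, sup s l₀ (rev ((g, ⟨l, h⟩), some c)).1
      = q * (s⁻¹ * sup s l₀ (g, ⟨l, h⟩)) := by
  have hv : ∀ c, sup s l₀ (rev ((g, ⟨l, h⟩), some c)).1 = s⁻¹ * sup s l₀ (g, ⟨l, h⟩) := by
    intro c
    simp only [rev, hlt, dif_neg, not_false_eq_true]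
    refine sup_gen_of_ne hs l₀ g (⟨l, by omega⟩, c) ?_ h
    intro hh
    apply hn
    rw [hh]
    rfl
  simp_rw [hv]
  simp

/-- Sum over the downward darts at the entrance leaf. -/
lemma sum_down_leaf_eq {s : ℝ} (hs : 1 ≤ s) (l₀ : List (Fin q)) (g : Grp q L) (l : List (Fin q))
    (h : l.length ≤ L) (hlt : ¬ l.length < L) (hq : 1 ≤ q) :
    ∑ c : Fin q, sup s l₀ (rev ((g, ⟨l, h⟩), some c)).1
      ≤ (s + (q - 1) * s⁻¹) * sup s l₀ (g, ⟨l, h⟩) := by
  have hs0 : 0 < s := by linarith
  have hsinv : s⁻¹ ≤ s := le_trans (inv_le_one_of_one_le₀ hs) hs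
  have hpos := sup_pos hs0 l₀ (g, (⟨l, h⟩ : Ball q L))
  have hcase : ∃ c₀ : Fin q, ∀ c, sup s l₀ (rev ((g, ⟨l, h⟩), some c)).1
      ≤ (s⁻¹ + if c = c₀ then s - s⁻¹ else 0) * sup s l₀ (g, ⟨l, h⟩) := by
    have hlL : l.length = L := by omega
    by_cases hex : ∃ c₀ : Fin q, (code g).head? = some (⟨l, hlL⟩, c₀)
    · obtain ⟨c₀, hc₀⟩ := hex
      refine ⟨c₀, fun c => ?_⟩
      simp only [rev, hlt, dif_neg, not_false_eq_true]
      by_cases hc : c = c₀
      · subst hc
        rw [sup_gen_of_eq hs0 l₀ g (⟨l, hlL⟩, c) hc₀ h]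
        simp
      · rw [sup_gen_of_ne hs0 l₀ g (⟨l, hlL⟩, c) ?_ h]
        · simp [hc]
        · rw [hc₀]
          simpa using fun h => hc h.symm
    · refine ⟨⟨0, hq⟩, fun c => ?_⟩
      simp only [rev, hlt, dif_neg, not_false_eq_true]
      rw [sup_gen_of_ne hs0 l₀ g (⟨l, hlL⟩, c) (fun hh => hex ⟨c, hh⟩) h]
      have : s⁻¹ ≤ s⁻¹ + if c = ⟨0, hq⟩ then s - s⁻¹ else 0 := by
        split_ifs <;> linarith
      exact mul_le_mul_of_nonneg_right this hpos.le
  obtain ⟨c₀, hc₀⟩ := hcase
  refine (Finset.sum_le_sum fun c _ => hc₀ c).trans (le_of_eq ?_)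
  rw [← Finset.sum_mul, Finset.sum_add_distrib, Finset.sum_ite_eq' Finset.univ c₀]
  simp only [Finset.sum_const, Finset.card_univ, Fintype.card_fin, nsmul_eq_mul, Finset.mem_univ,
    if_true]
  ring

/-- The harmonicity relation for the profile. -/
lemma Phi_harmonic {s : ℝ} (hs : 0 < s) (j : ℕ) :
    Phi s (j - 1) + (Phi s (j + 1) + (s ^ 2 - 1) * (s⁻¹ * Phi s j)) ≤ 2 * s * Phi s j := by
  have hsu : s * s⁻¹ = 1 := mul_inv_cancel₀ hs.ne'
  cases j with
  | zero =>
    unfold Phi
    generalize s⁻¹ = u at hsu ⊢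
    simp only [zero_add, Nat.zero_sub, pow_zero, pow_one, mul_one]
    refine le_of_eq ?_
    linear_combination (s ^ 3 + s ^ 2 - s) * hsu
  | succ j =>
    have h := Phi_add hs j
    simp only [Nat.add_sub_cancel]
    generalize s⁻¹ = u at hsu h ⊢
    refine le_of_eq ?_
    have e : j + 1 + 1 = j + 2 := rfl
    rw [e]
    linear_combination h + (s * Phi s (j + 1)) * hsu

/-- The bound at the entrance leaf. -/
lemma Phi_leaf {s : ℝ} (hs : 1 ≤ s) (L : ℕ) :
    Phi s (L - 1) ≤ (s⁻¹ + (s ^ 2 - 1) / (s ^ (2 * L + 2) + s)) * Phi s L := by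
  have hs0 : 0 < s := by linarith
  have hsu : s * s⁻¹ = 1 := mul_inv_cancel₀ hs0.ne'
  have hD : 0 < s ^ (2 * L + 2) + s := by positivity
  have h1 : Phi s L = s⁻¹ ^ L * (s ^ (2 * L + 2) + s) := by
    unfold Phi
    have : s⁻¹ ^ L * s ^ L = 1 := by rw [← mul_pow, mul_comm, hsu, one_pow]
    have h2 : s ^ (2 * L + 2) = s ^ L * s ^ L * s ^ 2 := by ring
    rw [h2]
    linear_combination (-(s ^ L * s ^ 2)) * this
  have h2 : (s ^ 2 - 1) / (s ^ (2 * L + 2) + s) * Phi s L = (s ^ 2 - 1) * s⁻¹ ^ L := by
    rw [h1]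
    field_simp
  rw [add_mul, h2]
  refine le_of_eq ?_
  unfold Phi
  generalize s⁻¹ = u at hsu ⊢
  cases L with
  | zero =>
    simp only [Nat.zero_sub, pow_zero, mul_one]
    linear_combination (-(s + 1)) * hsu
  | succ n =>
    simp only [Nat.add_sub_cancel]
    linear_combination (-(s ^ 2 * s ^ n) - s * u ^ n - u ^ (n + 1)) * hsu

/-- The supersolution inequality. -/
lemma sup_super {s : ℝ} (hs : 1 ≤ s) (hsq : s ^ 2 = q) (l₀ : List (Fin q)) (hl₀ : l₀.length = L)
    (v : Grp q L × Ball q L) :
    ∑ k : Option (Fin q), sup s l₀ (rev (v, k)).1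
      ≤ (2 * s + (q - 1) / (s ^ (2 * L + 2) + s)) * sup s l₀ v := by
  obtain ⟨g, l, h⟩ := v
  have hs0 : 0 < s := by linarith
  have hq1 : (1 : ℝ) ≤ q := by rw [← hsq]; nlinarith
  have hq : 1 ≤ q := by exact_mod_cast hq1
  have hdelta : 0 ≤ ((q : ℝ) - 1) / (s ^ (2 * L + 2) + s) :=
    div_nonneg (by linarith) (by positivity)
  have hpos := sup_pos hs0 l₀ (g, (⟨l, h⟩ : Ball q L))
  have hC := tileConst_pos hs0 l₀ (code g)
  have hlen := length_ent hl₀ (code g).head?
  rw [Fintype.sum_option]
  by_cases hsuf : l <:+ ent l₀ (code g).head?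
  · by_cases hlt : l.length < L
    · -- inside the tile, on the path to the entrance leaf
      rw [sup_up_suffix l₀ g l h hsuf, sum_down_inner l₀ g l h hlt,
        sum_children_suffix _ _ hsuf (by omega), sup_eq_of_head, phi_of_suffix hsuf]
      have key := Phi_harmonic hs0 l.length
      rw [hsq] at key
      have hP := Phi_pos hs0 l.length
      calc tileConst s l₀ (code g) * Phi s (l.length - 1) + tileConst s l₀ (code g) *
            (Phi s (l.length + 1) + ((q : ℝ) - 1) * (s⁻¹ * Phi s l.length))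
          = tileConst s l₀ (code g) * (Phi s (l.length - 1) +
            (Phi s (l.length + 1) + ((q : ℝ) - 1) * (s⁻¹ * Phi s l.length))) := by ring
        _ ≤ tileConst s l₀ (code g) * (2 * s * Phi s l.length) :=
            mul_le_mul_of_nonneg_left key hC.le
        _ ≤ tileConst s l₀ (code g) *
            ((2 * s + ((q : ℝ) - 1) / (s ^ (2 * L + 2) + s)) * Phi s l.length) := by
            refine mul_le_mul_of_nonneg_left (mul_le_mul_of_nonneg_right ?_ hP.le) hC.le
            linarith
        _ = _ := by ring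
    · -- the entrance leaf
      have hlL : l.length = L := by omega
      have h1 := sum_down_leaf_eq hs l₀ g l h hlt hq
      have h2 : sup s l₀ (rev ((g, ⟨l, h⟩), none)).1
          ≤ (s⁻¹ + ((q : ℝ) - 1) / (s ^ (2 * L + 2) + s)) * sup s l₀ (g, ⟨l, h⟩) := by
        rw [sup_up_suffix l₀ g l h hsuf, sup_eq_of_head, phi_of_suffix hsuf, hlL]
        have key := Phi_leaf hs L
        rw [hsq] at key
        calc _ ≤ tileConst s l₀ (code g) *
              ((s⁻¹ + ((q : ℝ) - 1) / (s ^ (2 * L + 2) + s)) * Phi s L) :=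
              mul_le_mul_of_nonneg_left key hC.le
          _ = _ := by ring
      refine (add_le_add h2 h1).trans (le_of_eq ?_)
      have hqs : (q : ℝ) * s⁻¹ = s := by
        rw [← hsq]; field_simp
      linear_combination hqs * sup s l₀ (g, ⟨l, h⟩)
  · -- off the path
    have hup := sup_up_not_suffix hs0 l₀ g l h hsuf
    have hdown : ∑ c : Fin q, sup s l₀ (rev ((g, ⟨l, h⟩), some c)).1
        = q * (s⁻¹ * sup s l₀ (g, ⟨l, h⟩)) := by
      by_cases hlt : l.length < L
      · rw [sum_down_inner l₀ g l h hlt, sum_children_not_suffix _ _ hsuf, sup_eq_of_head]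
        ring
      · refine sum_down_leaf_ne hs0 l₀ g l h hlt ?_
        rintro rfl
        exact hsuf (List.suffix_refl _)
    rw [hup, hdown]
    have hqs : (q : ℝ) * s⁻¹ = s := by
      rw [← hsq]; field_simp
    calc s * sup s l₀ (g, ⟨l, h⟩) + q * (s⁻¹ * sup s l₀ (g, ⟨l, h⟩))
        = 2 * s * sup s l₀ (g, ⟨l, h⟩) := by
          linear_combination hqs * sup s l₀ (g, ⟨l, h⟩)
      _ ≤ _ := by
          refine mul_le_mul_of_nonneg_right ?_ hpos.le
          linarith

/-! ### Countability, connectedness, cardinality -/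

instance countable_grp : Countable (Grp q L) := by
  have h1 : Function.Injective (fun w : Wd q L => w.toList) := fun _ _ h =>
    Monoid.CoprodI.Word.ext h
  have h2 : Countable (Wd q L) := h1.countable
  exact (Monoid.CoprodI.Word.equiv (M := fun _ : Idx q L => Multiplicative (ZMod 2))).countable_iff.2
    h2

lemma infinite_grp (hq : 2 ≤ q) : Infinite (Grp q L) := by
  rw [← not_finite_iff_infinite]
  intro hfin
  obtain ⟨g, hg⟩ := Finite.exists_max (fun g : Grp q L => (code g).length)
  have hl : (List.replicate L (⟨0, by omega⟩ : Fin q)).length = L := List.length_replicate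
  have hex : ∃ i : Idx q L, (code g).head? ≠ some i := by
    by_contra hcon
    push Not at hcon
    have h0 := hcon (⟨_, hl⟩, ⟨0, by omega⟩)
    have h1 := hcon (⟨_, hl⟩, ⟨1, by omega⟩)
    rw [h0] at h1
    simp at h1
  obtain ⟨i, hi⟩ := hex
  have h2 := hg (gen i * g)
  simp only [code_gen_mul hi, List.length_cons] at h2
  omega

/-- Reachability in the graph with dart involution `rev`. -/
def Reach (v w : Grp q L × Ball q L) : Prop :=
  Relation.ReflTransGen (fun u u' => 1 ≤ mult (rev (q := q) (L := L)) u u') v w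

lemma Reach.symm {v w : Grp q L × Ball q L} (h : Reach v w) : Reach w v := by
  unfold Reach at *
  induction h with
  | refl => exact Relation.ReflTransGen.refl
  | tail _ hbc ih =>
    refine Relation.ReflTransGen.head ?_ ih
    rwa [mult_symm _ rev_rev]

lemma Reach.trans {u v w : Grp q L × Ball q L} (h : Reach u v) (h' : Reach v w) : Reach u w :=
  Relation.ReflTransGen.trans h h'

lemma reach_port (v : Grp q L × Ball q L) (k : Option (Fin q)) : Reach v (rev (v, k)).1 :=
  Relation.ReflTransGen.single (one_le_mult rev v k)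

lemma reach_center (g : Grp q L) (l : List (Fin q)) (h : l.length ≤ L) :
    Reach (g, (⟨l, h⟩ : Ball q L)) (g, ⟨[], Nat.zero_le _⟩) := by
  induction l with
  | nil => exact Relation.ReflTransGen.refl
  | cons c t ih =>
    exact (reach_port (g, ⟨c :: t, h⟩) none).trans
      (ih (by simp only [List.length_cons] at h; omega))

lemma reach_gen (i : Idx q L) (g : Grp q L) :
    Reach (g, (⟨[], Nat.zero_le _⟩ : Ball q L)) (gen i * g, ⟨[], Nat.zero_le _⟩) := by
  have h1 : i.1.1.length ≤ L := i.1.2.le
  have h2 := reach_port (g, (⟨i.1.1, h1⟩ : Ball q L)) (some i.2)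
  have h3 : ¬ i.1.1.length < L := by rw [i.1.2]; exact lt_irrefl _
  simp only [rev, h3, dif_neg, not_false_eq_true] at h2
  exact ((reach_center g i.1.1 h1).symm.trans h2).trans (reach_center _ _ _)

lemma reach_mul (x : Grp q L) (g : Grp q L) :
    Reach (g, (⟨[], Nat.zero_le _⟩ : Ball q L)) (x * g, ⟨[], Nat.zero_le _⟩) := by
  induction x using Monoid.CoprodI.induction_on generalizing g with
  | one => rw [one_mul]; exact Relation.ReflTransGen.refl
  | of i m =>
    by_cases hm : m = 1
    · subst hm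
      rw [map_one, one_mul]; exact Relation.ReflTransGen.refl
    · rw [eq_ofAdd_one hm]
      exact reach_gen i g
  | mul x y hx hy =>
    rw [mul_assoc]
    exact (hy g).trans (hx (y * g))

lemma reach_all (v w : Grp q L × Ball q L) : Reach v w := by
  obtain ⟨g, l, hl⟩ := v
  obtain ⟨g', l', hl'⟩ := w
  have h1 := reach_mul (g' * g⁻¹) g
  rw [inv_mul_cancel_right] at h1
  exact ((reach_center g l hl).trans h1).trans (reach_center g' l' hl').symm

instance finite_ball : Finite (Ball q L) := List.finite_length_le (Fin q) L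

lemma card_ball [Fintype (Ball q L)] :
    Fintype.card (Ball q L) ≤ ∑ j ∈ Finset.range (L + 1), q ^ j := by
  let F : Ball q L → Σ j : Fin (L + 1), List.Vector (Fin q) j := fun l =>
    ⟨⟨l.1.length, by have := l.2; omega⟩, ⟨l.1, rfl⟩⟩
  have hF : Function.Injective F := by
    intro l l' h
    have h1 := congrArg (fun z : Σ j : Fin (L + 1), List.Vector (Fin q) j => z.2.1) h
    exact Subtype.ext h1
  refine (Fintype.card_le_of_injective F hF).trans (le_of_eq ?_)
  rw [Fintype.card_sigma, Finset.sum_range]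
  simp

end Construction

/-! ### The random graph and its properties -/

section Final

variable {q L : ℕ}

lemma rootedLaw_apply {Γ B P : Type} [Group Γ] [Fintype B] [Fintype P] [DecidableEq Γ]
    [DecidableEq B] (e : Γ × B ≃ ℕ) (rv : (Γ × B) × P → (Γ × B) × P) (S : Set (Graph × ℕ)) :
    rootedLaw e rv S
      = (Fintype.card B : ℝ≥0∞)⁻¹ * ∑ b : B, S.indicator 1 (coded e rv, e (1, b)) := by
  unfold rootedLaw
  simp [Measure.dirac_apply]

lemma isConnectedRegular_coded (e : Grp q L × Ball q L ≃ ℕ) :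
    IsConnectedRegular (q + 1) (coded e rev) where
  symm x y := mult_symm _ rev_rev _ _
  regular x := by
    have h := tsum_mult_mul (rev (q := q) (L := L)) (fun _ => 1) (e.symm x)
    simp only [mul_one, Finset.sum_const, Finset.card_univ, Fintype.card_option,
      Fintype.card_fin, nsmul_eq_mul] at h
    rw [← h]
    exact e.symm.tsum_eq (fun v => (mult (rev (q := q) (L := L)) (e.symm x) v : ℝ≥0∞))
  connected x y := by
    have h := reach_all (e.symm x) (e.symm y)
    have h1 : (fun u u' => 1 ≤ mult (rev (q := q) (L := L)) u u') ≤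
        Function.onFun (fun u v => 1 ≤ coded e rev u v) e := by
      intro u v huv
      simpa [coded, Function.onFun] using huv
    have h2 := Relation.ReflTransGen.lift e h1 _ _ h
    simpa [Function.onFun] using h2

lemma spectralRadius_coded {s : ℝ} (hs : 1 ≤ s) (hsq : s ^ 2 = q)
    (e : Grp q L × Ball q L ≃ ℕ) (o : ℕ) :
    spectralRadius (q + 1) (coded e rev) o
      ≤ ENNReal.ofReal (2 * s + (q - 1) / (s ^ (2 * L + 2) + s)) / ((q + 1 : ℕ) : ℝ≥0∞) := by
  have hs0 : 0 < s := by linarith
  have hq1 : (1 : ℝ) ≤ q := by rw [← hsq]; nlinarith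
  have hq : 1 ≤ q := by exact_mod_cast hq1
  have hdelta : 0 ≤ ((q : ℝ) - 1) / (s ^ (2 * L + 2) + s) :=
    div_nonneg (by linarith) (by positivity)
  let l₀ : List (Fin q) := List.replicate L ⟨0, by omega⟩
  have hl₀ : l₀.length = L := List.length_replicate
  refine spectralRadius_le (q + 1) (coded e rev)
    (fun x => ENNReal.ofReal (sup s l₀ (e.symm x))) _ ?_ ?_ ?_ o
  · intro x
    have h1 : ∑' y, (coded e rev x y : ℝ≥0∞) * ENNReal.ofReal (sup s l₀ (e.symm y))
        = ∑' v, (mult (rev (q := q) (L := L)) (e.symm x) v : ℝ≥0∞)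
          * ENNReal.ofReal (sup s l₀ v) :=
      e.symm.tsum_eq (fun v => (mult (rev (q := q) (L := L)) (e.symm x) v : ℝ≥0∞)
          * ENNReal.ofReal (sup s l₀ v))
    rw [h1, tsum_mult_mul, ← ENNReal.ofReal_mul (by positivity),
      ← ENNReal.ofReal_sum_of_nonneg (fun k _ => (sup_pos hs0 _ _).le)]
    exact ENNReal.ofReal_le_ofReal (sup_super hs hsq l₀ hl₀ _)
  · intro x
    rw [Ne, ENNReal.ofReal_eq_zero, not_le]
    exact sup_pos hs0 _ _
  · intro x
    exact ENNReal.ofReal_ne_top

lemma isUnimodularRegular_rootedLaw [Fintype (Ball q L)] (e : Grp q L × Ball q L ≃ ℕ) :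
    IsUnimodularRegular (q + 1) (rootedLaw e rev) where
  probability := by
    rw [rootedLaw_apply]
    simp only [Set.indicator_univ, Pi.one_apply, Finset.sum_const, Finset.card_univ,
      nsmul_eq_mul, mul_one]
    refine ENNReal.inv_mul_cancel ?_ (ENNReal.natCast_ne_top _)
    have : Nonempty (Ball q L) := ⟨⟨[], Nat.zero_le _⟩⟩
    exact_mod_cast Fintype.card_ne_zero
  regular := by
    rw [ae_iff, rootedLaw_apply]
    simp [isConnectedRegular_coded]
  massTransport f _ hf := massTransport_rootedLaw e rev rev_shift f hf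

lemma loopDensity_rootedLaw [Fintype (Ball q L)] (e : Grp q L × Ball q L ≃ ℕ) :
    (Fintype.card (Ball q L) : ℝ≥0∞)⁻¹ ≤ loopDensity (rootedLaw e rev) := by
  unfold loopDensity
  rw [rootedLaw_apply]
  have h : (1 : ℝ≥0∞) ≤ ∑ b : Ball q L,
      ({p : Graph × ℕ | 1 ≤ p.1 p.2 p.2}).indicator 1 (coded e rev, e (1, b)) := by
    have h1 : ({p : Graph × ℕ | 1 ≤ p.1 p.2 p.2}).indicator (1 : Graph × ℕ → ℝ≥0∞)
        (coded e rev, e (1, ⟨[], Nat.zero_le _⟩)) = 1 := by
      rw [Set.indicator_of_mem]
      · rfl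
      · show 1 ≤ coded e rev (e (1, ⟨[], Nat.zero_le _⟩)) (e (1, ⟨[], Nat.zero_le _⟩))
        simp only [coded, Equiv.symm_apply_apply]
        exact one_le_mult (rev (q := q) (L := L)) (1, ⟨[], Nat.zero_le _⟩) none
    calc (1 : ℝ≥0∞) = _ := h1.symm
      _ ≤ _ := Finset.single_le_sum (f := fun b : Ball q L =>
          ({p : Graph × ℕ | 1 ≤ p.1 p.2 p.2}).indicator (1 : Graph × ℕ → ℝ≥0∞)
            (coded e rev, e (1, b))) (fun _ _ => zero_le) (Finset.mem_univ _)
  calc (Fintype.card (Ball q L) : ℝ≥0∞)⁻¹ = (Fintype.card (Ball q L) : ℝ≥0∞)⁻¹ * 1 :=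
        (mul_one _).symm
    _ ≤ _ := mul_le_mul' le_rfl h

/-- The choice of the radius `L` of the tiles. -/
lemma exists_radius (hq : 2 ≤ q) {r : ℝ} (hr0 : 0 < r) (hr1 : r ≤ 1) :
    ∃ L : ℕ, (∑ j ∈ Finset.range (L + 1), (q : ℝ) ^ j) * r ≤ 1 ∧ 1 < q ^ (L + 2) * r / (q - 1) := by
  have hq2 : (2 : ℝ) ≤ q := by exact_mod_cast hq
  have hex : ∃ n : ℕ, 1 < (∑ j ∈ Finset.range (n + 1), (q : ℝ) ^ j) * r := by
    obtain ⟨n, hn⟩ := exists_nat_gt (1 / r)
    refine ⟨n, ?_⟩
    have h1 : (n : ℝ) ≤ ∑ j ∈ Finset.range (n + 1), (q : ℝ) ^ j := by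
      calc (n : ℝ) ≤ ((n + 1 : ℕ) : ℝ) := by push_cast; linarith
        _ = ∑ j ∈ Finset.range (n + 1), (1 : ℝ) := by simp
        _ ≤ _ := Finset.sum_le_sum fun j _ => one_le_pow₀ (by linarith)
    have h2 : 1 < n * r := by rwa [div_lt_iff₀ hr0] at hn
    nlinarith
  classical
  have hfind := Nat.find_spec hex
  have hne : Nat.find hex ≠ 0 := by
    intro h0
    rw [h0] at hfind
    simp at hfind
    linarith
  obtain ⟨L, hL⟩ := Nat.exists_eq_succ_of_ne_zero hne
  refine ⟨L, ?_, ?_⟩
  · have := Nat.find_min hex (m := L) (by omega)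
    exact not_lt.1 this
  · rw [hL] at hfind
    have h3 : (∑ j ∈ Finset.range (L + 1 + 1), (q : ℝ) ^ j) * (q - 1) = q ^ (L + 2) - 1 :=
      geom_sum_mul _ _
    have h4 : (0 : ℝ) < q - 1 := by linarith
    rw [lt_div_iff₀ h4]
    have h5 : (1 : ℝ) < (∑ j ∈ Finset.range (L + 1 + 1), (q : ℝ) ^ j) * r := hfind
    nlinarith

end Final

/-- **Linear order is attained.** There is a constant `C > 0` (one may take `C ≤ 1`, and it does not
even depend on `d`) such that for all `d ≥ 3` and `r ∈ (0, 1]` there is an infinite `d`-regular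
unimodular random graph `μ` with loop density at least `r` and with spectral radius at most
`ρ(T_d) + C r`, where `ρ(T_d) = 2 √(d - 1) / d` is the spectral radius of the `d`-regular tree. -/
theorem result : ∃ C : ℝ, 0 < C ∧ C ≤ 1 ∧ ∀ d : ℕ, 3 ≤ d → ∀ r : ℝ, 0 < r → r ≤ 1 →
    ∃ μ : Measure (Graph × ℕ), IsUnimodularRegular d μ ∧
      randomSpectralRadius d μ ≤ ENNReal.ofReal (2 * √((d : ℝ) - 1) / d + C * r) ∧
      ENNReal.ofReal r ≤ loopDensity μ := by
  refine ⟨1, one_pos, le_rfl, fun d hd r hr0 hr1 => ?_⟩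
  obtain ⟨q, rfl⟩ : ∃ q, d = q + 1 := ⟨d - 1, by omega⟩
  have hq : 2 ≤ q := by omega
  have hq2 : (2 : ℝ) ≤ q := by exact_mod_cast hq
  obtain ⟨L, hL1, hL2⟩ := exists_radius hq hr0 hr1
  have : Infinite (Grp q L) := infinite_grp hq
  have : Nonempty (Ball q L) := ⟨⟨[], Nat.zero_le _⟩⟩
  have : Infinite (Grp q L × Ball q L) := inferInstance
  let _ : Fintype (Ball q L) := Fintype.ofFinite _
  obtain ⟨hden⟩ := nonempty_denumerable (Grp q L × Ball q L)
  let e : Grp q L × Ball q L ≃ ℕ := Denumerable.eqv _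
  refine ⟨rootedLaw e rev, isUnimodularRegular_rootedLaw e, ?_, ?_⟩
  · -- the spectral radius
    refine essSup_le_of_ae_le _ ?_
    have hs : 1 ≤ √(q : ℝ) := Real.one_le_sqrt.2 (by linarith)
    have hsq : √(q : ℝ) ^ 2 = q := Real.sq_sqrt (by linarith)
    have hb : ∀ p : Graph × ℕ, p.1 = coded e rev →
        spectralRadius (q + 1) p.1 p.2
          ≤ ENNReal.ofReal (2 * √(((q + 1 : ℕ) : ℝ) - 1) / ((q + 1 : ℕ) : ℝ) + 1 * r) := by
      intro p hp
      rw [hp]
      refine (spectralRadius_coded hs hsq e p.2).trans ?_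
      have hcast : ((q + 1 : ℕ) : ℝ≥0∞) = ENNReal.ofReal ((q + 1 : ℕ) : ℝ) := by
        rw [ENNReal.ofReal_natCast]
      have hq1pos : (0 : ℝ) < ((q + 1 : ℕ) : ℝ) := by positivity
      rw [hcast, ← ENNReal.ofReal_div_of_pos hq1pos]
      refine ENNReal.ofReal_le_ofReal ?_
      have e1 : ((q + 1 : ℕ) : ℝ) - 1 = q := by push_cast; ring
      rw [e1, add_div, one_mul]
      refine add_le_add le_rfl ?_
      have hpow : √(q : ℝ) ^ (2 * L + 2) = (q : ℝ) ^ (L + 1) := by
        rw [show 2 * L + 2 = 2 * (L + 1) by ring, pow_mul, hsq]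
      rw [hpow]
      have hqpos : (0 : ℝ) < (q : ℝ) ^ (L + 1) := by positivity
      have h4 : (0 : ℝ) < q - 1 := by linarith
      rw [lt_div_iff₀ h4, one_mul] at hL2
      calc ((q : ℝ) - 1) / (q ^ (L + 1) + √q) / ((q + 1 : ℕ) : ℝ)
          ≤ ((q : ℝ) - 1) / (q ^ (L + 1)) / ((q + 1 : ℕ) : ℝ) := by
            gcongr
            have := Real.sqrt_nonneg (q : ℝ)
            linarith
        _ ≤ (q ^ (L + 2) * r) / (q ^ (L + 1)) / ((q + 1 : ℕ) : ℝ) := by
            gcongr
        _ = q / ((q + 1 : ℕ) : ℝ) * r := by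
            field_simp
            ring
        _ ≤ 1 * r := by
            refine mul_le_mul_of_nonneg_right ?_ hr0.le
            rw [div_le_one hq1pos]
            push_cast
            linarith
        _ = r := one_mul r
    rw [Filter.EventuallyLE, ae_iff, rootedLaw_apply]
    have : ∀ b : Ball q L, ({a : Graph × ℕ | ¬ spectralRadius (q + 1) a.1 a.2
        ≤ ENNReal.ofReal (2 * √(((q + 1 : ℕ) : ℝ) - 1) / ((q + 1 : ℕ) : ℝ) + 1 * r)}).indicator
          (1 : Graph × ℕ → ℝ≥0∞) (coded e rev, e (1, b)) = 0 := by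
      intro b
      rw [Set.indicator_of_notMem]
      simp only [Set.mem_ofPred_eq, not_not]
      exact hb (coded e rev, e (1, b)) rfl
    simp only [this, Finset.sum_const_zero, mul_zero]
  · -- the loop density
    refine le_trans ?_ (loopDensity_rootedLaw e)
    have hcard : (Fintype.card (Ball q L) : ℝ) ≤ ∑ j ∈ Finset.range (L + 1), (q : ℝ) ^ j := by
      exact_mod_cast card_ball (q := q) (L := L)
    have hcpos : (0 : ℝ) < Fintype.card (Ball q L) := by
      exact_mod_cast Fintype.card_pos
    have h1 : r ≤ ((Fintype.card (Ball q L) : ℝ))⁻¹ := by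
      rw [le_inv_comm₀ hr0 hcpos, ← one_div, le_div_iff₀ hr0]
      exact (mul_le_mul_of_nonneg_right hcard hr0.le).trans hL1
    have h2 : ENNReal.ofReal ((Fintype.card (Ball q L) : ℝ))⁻¹
        = (Fintype.card (Ball q L) : ℝ≥0∞)⁻¹ := by
      rw [ENNReal.ofReal_inv_of_pos hcpos, ENNReal.ofReal_natCast]
    rw [← h2]
    exact ENNReal.ofReal_le_ofReal h1

end Pool.Agent.Results.MP_74bc7f_pr.LinearOrder
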